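import Pool.Agent.R739.RM.Ca

/-!
# The multiplication-by-3/2 automaton started from configurations with a random tail
-/

set_option autoImplicit false

namespace Pool.Agent.Results.MP_881467_an.RandomTails

open Finset Filter Topology MeasureTheory ProbabilityTheory

/-- the local rule -/
def f (s t : Fin 6) : Fin 6 := ⟨(3 * (s : ℕ)) % 6 + (3 * (t : ℕ)) / 6, by omega⟩

/-- the automaton `F_{×3}` -/
def F3 (x : ℤ → Fin 6) : ℤ → Fin 6 := fun i => f (x i) (x (i + 1))

/-- the automaton `F_{×3/2}` -/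
def F32 (x : ℤ → Fin 6) : ℤ → Fin 6 := fun i => F3 (F3 x) (i - 1)

/-- the word `w` of `L` letters stands in `x` at the cells `j, …, j + L - 1` -/
def Shows {L : ℕ} (x : ℤ → Fin 6) (w : Fin L → Fin 6) (j : ℤ) : Prop :=
  ∀ s : Fin L, x (j + (s : ℕ)) = w s

/-- the configuration `x0` with the digits at the cells `i0, i0 + 1, …` replaced by `d 0, d 1, …` -/
def replaceTail (x0 : ℤ → Fin 6) (i0 : ℤ) (d : ℕ → Fin 6) : ℤ → Fin 6 :=
  fun i => if i < i0 then x0 i else d (i - i0).toNat

lemma F32_eq : F32 = Pool.Agent.H429R2.Auto.F := by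
  funext x i
  show f (f (x (i - 1)) (x (i - 1 + 1))) (f (x (i - 1 + 1)) (x (i - 1 + 1 + 1))) =
    f (f (x (i - 1)) (x (i + 1 - 1))) (f (x (i + 1 - 1)) (x (i + 1 + 1 - 1)))
  have e1 : i - 1 + 1 = i := by ring
  have e2 : i + 1 - 1 = i := by ring
  have e3 : i + 1 + 1 - 1 = i + 1 := by ring
  rw [e1, e2, e3]

open Classical in
/-- Let `x0` be a configuration whose cells far to the left are `0`, for instance a `0`-finite one,
and let `i0` be any cell. Replace the digits at the cells `i ≥ i0` by independent random digits, no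
digit being taken with a probability larger than `1 - c`, where `c > 0`. Then almost surely, for
every word `w` of any length `L` and every cell `j`, the word `w` stands at `j` for exactly the
proportion `6 ^ (-L)` of the times; in particular the orbit is almost surely dense. -/
theorem result (x0 : ℤ → Fin 6) (hx0 : ∃ m : ℤ, ∀ i < m, x0 i = 0) (i0 : ℤ)
    {Ω : Type} [MeasurableSpace Ω] (P : Measure Ω) [IsProbabilityMeasure P]
    (D : ℕ → Ω → Fin 6) (hD : ∀ j, Measurable (D j)) (hI : iIndepFun D P) (c : ℝ) (hc : 0 < c)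
    (hcD : ∀ j d, P.real {ω | D j ω = d} ≤ 1 - c) :
    ∀ᵐ ω ∂P, (∀ (j : ℤ) (L : ℕ) (w : Fin L → Fin 6),
      Tendsto (fun N : ℕ => (((Icc 1 N).filter (fun n : ℕ =>
        Shows (F32^[n] (replaceTail x0 i0 fun k => D k ω)) w j)).card : ℝ) / (N : ℝ)) atTop
        (𝓝 (1 / 6 ^ L))) ∧
      Dense (Set.range fun n : ℕ => F32^[n] (replaceTail x0 i0 fun k => D k ω)) := by
  obtain ⟨m, hm⟩ := hx0
  rw [F32_eq]
  exact Pool.Agent.R739.RM.tails x0 m hm i0 P D hD hI c hc hcD

end Pool.Agent.Results.MP_881467_an.RandomTails
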